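import Pool.Agent.Lib.Helper54.S18919.Final
import Pool.Agent.Lib.Helper54.S18919.Data.Valid

set_option autoImplicit false

namespace Pool.Agent.Results.MP_f10524_nt.DoubleInfimum

open Filter

/-- `N` is a norm on the real plane. -/
def IsNorm (N : (Fin 2 → ℝ) → ℝ) : Prop :=
  (∀ x, N x = 0 → x = 0) ∧
  (∀ x y, N (x + y) ≤ N x + N y) ∧
  (∀ (r : ℝ) (x : Fin 2 → ℝ), N (r • x) = |r| * N x)

/-- `θ` is admissible: no nonzero integer multiple `x θ` is an integer vector. -/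
def Admissible (θ : Fin 2 → ℝ) : Prop :=
  ∀ x : ℤ, x ≠ 0 → ∀ y : Fin 2 → ℤ, x • θ ≠ fun i => (y i : ℝ)

/-- The length of `x θ - y` for the integer vector `z = (x, y)`. -/
noncomputable def err (N : (Fin 2 → ℝ) → ℝ) (θ : Fin 2 → ℝ) (z : ℤ × (Fin 2 → ℤ)) : ℝ :=
  N (z.1 • θ - fun i => (z.2 i : ℝ))

/-- `z = (x, y)` is a best approximation vector for `θ` with respect to `N`: it is nonzero, and the
only integer vectors `w = (x', y')` with `|x'| ≤ |x|` and `N (x' θ - y') ≤ N (x θ - y)` are `0` and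
`z` and `-z`. -/
def IsBest (N : (Fin 2 → ℝ) → ℝ) (θ : Fin 2 → ℝ) (z : ℤ × (Fin 2 → ℤ)) : Prop :=
  z ≠ 0 ∧ ∀ w : ℤ × (Fin 2 → ℤ), |w.1| ≤ |z.1| → err N θ w ≤ err N θ z → w = 0 ∨ w = z ∨ w = -z

/-- `m` is the height `|x|` of a best approximation vector `z = (x, y)`. -/
def IsHeight (N : (Fin 2 → ℝ) → ℝ) (θ : Fin 2 → ℝ) (m : ℕ) : Prop :=
  ∃ z : ℤ × (Fin 2 → ℤ), IsBest N θ z ∧ |z.1| = (m : ℤ)

/-- The heights `M 1 < M 2 < M 3 < ...` of the best approximation vectors, in increasing order. -/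
noncomputable def M (N : (Fin 2 → ℝ) → ℝ) (θ : Fin 2 → ℝ) (ν : ℕ) : ℕ :=
  Nat.nth (IsHeight N θ) (ν - 1)

/-- The lower limit of `(M ν) ^ (1 / ν)`, in `[0, ∞]`. -/
noncomputable def G (N : (Fin 2 → ℝ) → ℝ) (θ : Fin 2 → ℝ) : ENNReal :=
  liminf (fun ν : ℕ => (M N θ ν : ENNReal) ^ (1 / (ν : ℝ))) atTop

/-! ### Elementary facts on best approximation vectors -/

section basic

variable {N : (Fin 2 → ℝ) → ℝ} {θ : Fin 2 → ℝ}

lemma adm_old (hθ : Admissible θ) :
    ∀ q : ℤ, q ≠ 0 → ¬ ∀ i : Fin 2, ∃ a : ℤ, (q : ℝ) * θ i = (a : ℝ) := by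
  intro q hq h
  choose a ha using h
  apply hθ q hq a
  ext i
  rw [Pi.smul_apply, zsmul_eq_mul]
  exact ha i

lemma adm_new (hθ : ∀ q : ℤ, q ≠ 0 → ¬ ∀ i : Fin 2, ∃ a : ℤ, (q : ℝ) * θ i = (a : ℝ)) :
    Admissible θ := by
  intro x hx y h
  apply hθ x hx
  intro i
  refine ⟨y i, ?_⟩
  have := congrFun h i
  rwa [Pi.smul_apply, zsmul_eq_mul] at this

lemma norm_old (hN : IsNorm N) : Pool.Agent.Helper54.IsNorm2 N := ⟨hN.1, hN.2.1, hN.2.2⟩

lemma norm_new (hN : Pool.Agent.Helper54.IsNorm2 N) : IsNorm N := ⟨hN.eq_zero, hN.tri, hN.hom⟩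

lemma err_nat (k : ℕ) (y : Fin 2 → ℤ) :
    err N θ ((k : ℤ), y) = N (fun i => (k : ℝ) * θ i - ((y i : ℤ) : ℝ)) := by
  unfold err
  congr 1
  ext i
  simp

lemma err_neg (hN : Pool.Agent.Helper54.IsNorm2 N) (z : ℤ × (Fin 2 → ℤ)) :
    err N θ (-z) = err N θ z := by
  unfold err
  rw [← hN.neg]
  congr 1
  ext i
  simp
  ring

/-- The negative of a best approximation vector is one as well. -/
lemma IsBest.neg (hN : Pool.Agent.Helper54.IsNorm2 N) {z : ℤ × (Fin 2 → ℤ)}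
    (hz : IsBest N θ z) : IsBest N θ (-z) := by
  refine ⟨neg_ne_zero.2 hz.1, ?_⟩
  intro w h1 h2
  rw [err_neg hN] at h2
  rw [Prod.fst_neg, abs_neg] at h1
  rcases hz.2 w h1 h2 with h | h | h
  · exact Or.inl h
  · right; right; rw [h, neg_neg]
  · right; left; exact h

/-- Best approximation vectors of equal height agree up to sign. -/
lemma IsBest.unique {z w : ℤ × (Fin 2 → ℤ)} (hz : IsBest N θ z) (hw : IsBest N θ w)
    (h : |z.1| = |w.1|) : w = z ∨ w = -z := by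
  rcases le_total (err N θ w) (err N θ z) with h1 | h1
  · rcases hz.2 w h.ge h1 with h2 | h2 | h2
    · exact absurd h2 hw.1
    · exact Or.inl h2
    · exact Or.inr h2
  · rcases hw.2 z h.le h1 with h2 | h2 | h2
    · exact absurd h2 hz.1
    · exact Or.inl h2.symm
    · right; rw [h2, neg_neg]

/-- A positive height is a record time. -/
lemma rec_of_height (hN : Pool.Agent.Helper54.IsNorm2 N) {k : ℕ} (hk : 0 < k)
    (h : IsHeight N θ k) : Pool.Agent.Helper54.isRec N θ k := by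
  obtain ⟨z, hz, hzk⟩ := h
  -- choose the sign
  obtain ⟨y, hy⟩ : ∃ y : Fin 2 → ℤ, IsBest N θ ((k : ℤ), y) := by
    rcases abs_eq (by omega : (0:ℤ) ≤ k) |>.1 hzk with h1 | h1
    · refine ⟨z.2, ?_⟩
      have : ((k : ℤ), z.2) = z := by ext1 <;> simp [h1]
      rw [this]; exact hz
    · refine ⟨-z.2, ?_⟩
      have : ((k : ℤ), -z.2) = -z := by ext1 <;> simp [h1]
      rw [this]; exact hz.neg hN
  refine ⟨hk, ?_⟩
  intro j hj hjk
  obtain ⟨b, hb⟩ := Pool.Agent.Helper54.latDist_attained hN (θ := θ) j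
  have h1 := Pool.Agent.Helper54.latDist_le hN (θ := θ) k y
  have h2 : err N θ ((k : ℤ), y) < err N θ ((j : ℤ), b) := by
    by_contra hcon
    rcases hy.2 ((j : ℤ), b) (by
      show |(j : ℤ)| ≤ |(k : ℤ)|
      rw [Nat.abs_cast, Nat.abs_cast]; exact_mod_cast hjk.le) (not_lt.1 hcon) with h | h | h
    · have := congrArg Prod.fst h
      simp at this
      omega
    · have := congrArg Prod.fst h
      simp at this
      omega
    · have := congrArg Prod.fst h
      simp at this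
      omega
  rw [err_nat, err_nat, hb] at h2
  exact lt_of_le_of_lt h1 h2

/-- From some point on, the heights are exactly the record times. -/
lemma exists_bound (hN : Pool.Agent.Helper54.IsNorm2 N)
    (hθ : ∀ q : ℤ, q ≠ 0 → ¬ ∀ i : Fin 2, ∃ a : ℤ, (q : ℝ) * θ i = (a : ℝ)) :
    ∃ K : ℕ, 0 < K ∧ ∀ k, K ≤ k →
      (IsHeight N θ k ↔ Pool.Agent.Helper54.isRec N θ k) := by
  obtain ⟨κ, hκ, hlow⟩ := hN.exists_lower
  -- nonzero integer vectors are long
  have hint : ∀ y : Fin 2 → ℤ, N (fun i => (y i : ℝ)) < κ → y = 0 := by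
    intro y hy
    by_contra hne
    obtain ⟨i, hi⟩ : ∃ i, y i ≠ 0 := by
      by_contra hcon
      push Not at hcon
      exact hne (funext hcon)
    have h1 : (1:ℝ) ≤ ‖(fun i => (y i : ℝ))‖ := by
      have h2 : |(y i : ℝ)| ≤ ‖(fun i => (y i : ℝ))‖ := norm_le_pi_norm (fun i => (y i : ℝ)) i
      have h4 : (1:ℝ) ≤ |(y i : ℝ)| := by
        rw [← Int.cast_abs]
        exact_mod_cast Int.one_le_abs hi
      linarith
    have h2 := hlow (fun i => (y i : ℝ))
    nlinarith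
  obtain ⟨K, hK0, hK, hKε⟩ := Pool.Agent.Helper54.exists_rec_gt hN hθ 0 (κ / 2) (by positivity)
  refine ⟨K, hK0, ?_⟩
  intro k hk
  have hk0 : 0 < k := lt_of_lt_of_le hK0 hk
  refine ⟨rec_of_height hN hk0, ?_⟩
  intro hrec
  have hsmall : Pool.Agent.Helper54.latDist N θ k < κ / 2 := by
    rcases lt_or_eq_of_le hk with h | h
    · exact (hrec.2 K hK0 h).trans hKε
    · rw [← h]; exact hKε
  obtain ⟨a, ha⟩ := Pool.Agent.Helper54.latDist_attained hN (θ := θ) k
  refine ⟨((k : ℤ), a), ⟨?_, ?_⟩, ?_⟩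
  · intro h
    have := congrArg Prod.fst h
    simp at this
    omega
  · -- the comparison
    have main : ∀ w : ℤ × (Fin 2 → ℤ), 0 ≤ w.1 → w.1 ≤ (k : ℤ) →
        err N θ w ≤ err N θ ((k : ℤ), a) → w = 0 ∨ w = ((k : ℤ), a) := by
      rintro ⟨x, y⟩ hx0 hxk hle
      obtain ⟨j, rfl⟩ := Int.eq_ofNat_of_zero_le hx0
      have hjk : j ≤ k := by
        have : (j : ℤ) ≤ (k : ℤ) := hxk
        omega
      rw [err_nat, err_nat, ha] at hle
      rcases Nat.eq_zero_or_pos j with h0 | h0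
      · left
        subst h0
        have hy : y = 0 := by
          apply hint
          have e : (fun i : Fin 2 => ((0 : ℕ) : ℝ) * θ i - ((y i : ℤ) : ℝ))
              = -(fun i => (y i : ℝ)) := by ext i; simp
          rw [e, hN.neg] at hle
          linarith
        rw [hy]; rfl
      · rcases lt_or_eq_of_le hjk with h | h
        · exfalso
          have h1 := hrec.2 j h0 h
          have h2 := Pool.Agent.Helper54.latDist_le hN (θ := θ) j y
          linarith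
        · right
          subst h
          have hy : y - a = 0 := by
            apply hint
            have e : (fun i : Fin 2 => (((y - a) i : ℤ) : ℝ))
                = (fun i => (j : ℝ) * θ i - ((a i : ℤ) : ℝ))
                  - (fun i => (j : ℝ) * θ i - ((y i : ℤ) : ℝ)) := by
              ext i; simp
            rw [e]
            have := hN.sub_le (fun i => (j : ℝ) * θ i - ((a i : ℤ) : ℝ))
              (fun i => (j : ℝ) * θ i - ((y i : ℤ) : ℝ))
            rw [ha] at this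
            linarith
          rw [sub_eq_zero.1 hy]
    intro w hw hle
    have hwk : |w.1| ≤ (k : ℤ) := by
      have : |((k : ℤ), a).1| = (k : ℤ) := Nat.abs_cast k
      rw [this] at hw
      exact hw
    rcases le_total 0 w.1 with h | h
    · rcases main w h (by rw [abs_of_nonneg h] at hwk; exact hwk) hle with h1 | h1
      · exact Or.inl h1
      · exact Or.inr (Or.inl h1)
    · rcases main (-w) (by rw [Prod.fst_neg]; omega)
        (by rw [Prod.fst_neg]; rw [abs_of_nonpos h] at hwk; exact hwk)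
        (by rw [err_neg hN]; exact hle) with h1 | h1
      · left; exact neg_eq_zero.1 h1
      · right; right; rw [← h1, neg_neg]
  · exact Nat.abs_cast k

lemma height_infinite (hN : Pool.Agent.Helper54.IsNorm2 N)
    (hθ : ∀ q : ℤ, q ≠ 0 → ¬ ∀ i : Fin 2, ∃ a : ℤ, (q : ℝ) * θ i = (a : ℝ)) :
    {k : ℕ | IsHeight N θ k}.Infinite := by
  have hinf := Pool.Agent.Helper54.rec_infinite hN hθ
  obtain ⟨K, hK0, hK⟩ := exists_bound hN hθ
  rw [← Nat.frequently_atTop_iff_infinite] at hinf ⊢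
  exact (hinf.and_eventually (eventually_ge_atTop K)).mono
    (fun k hk => (hK k hk.2).2 hk.1)

end basic

/-! ### Bounded shifts of the numbering -/

/-- Two infinite predicates that agree from `K` on have the same enumeration up to a shift. -/
lemma nth_shift (p q : ℕ → Prop) (hp : {k | p k}.Infinite) (K : ℕ)
    (hK : ∀ k, K ≤ k → (p k ↔ q k)) :
    ∃ s t : ℕ, ∀ n, Nat.nth p (n + s) = Nat.nth q (n + t) := by
  classical
  refine ⟨Nat.count p K, Nat.count q K, ?_⟩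
  intro n
  set k := Nat.nth p (n + Nat.count p K) with hk
  have hpk : p k := Nat.nth_mem_of_infinite hp _
  have hcount : Nat.count p k = n + Nat.count p K := Nat.count_nth_of_infinite hp _
  have hKk : K ≤ k := by
    by_contra hcon
    have h1 : k < K := not_le.1 hcon
    have h2 := Nat.count_monotone p (show k + 1 ≤ K by omega)
    rw [Nat.count_succ, if_pos hpk, hcount] at h2
    omega
  obtain ⟨d, hd⟩ := Nat.exists_eq_add_of_le hKk
  have hpq : (fun i => p (K + i)) = fun i => q (K + i) := by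
    funext i
    exact propext (hK (K + i) (by omega))
  have c1 : Nat.count p k = Nat.count p K + Nat.count (fun i => p (K + i)) d := by
    rw [hd]; exact Nat.count_add p K d
  have c2 : Nat.count q k = Nat.count q K + Nat.count (fun i => q (K + i)) d := by
    rw [hd]; exact Nat.count_add q K d
  have c3 : Nat.count (fun i => p (K + i)) d = Nat.count (fun i => q (K + i)) d := by
    congr 1
  have c4 : Nat.count q k = n + Nat.count q K := by omega
  have hqk : q k := (hK k hKk).1 hpk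
  have := Nat.nth_count hqk
  rw [c4] at this
  exact this.symm

/-- A bounded shift costs nothing in the exponential growth. -/
lemma pow_shift (c c' : ℝ) (hc : 0 < c) (hcc : c < c') (B : ℕ) :
    ∀ᶠ n : ℕ in atTop, c' ^ B * c ^ n < c' ^ n := by
  have hc' : 0 < c' := hc.trans hcc
  have hratio : Tendsto (fun ν : ℕ => c' ^ B * (c / c') ^ ν) atTop (nhds 0) := by
    have := (tendsto_pow_atTop_nhds_zero_of_lt_one (r := c / c') (by positivity)
      ((div_lt_one hc').2 hcc)).const_mul (c' ^ B)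
    rwa [mul_zero] at this
  filter_upwards [hratio.eventually_lt_const one_pos] with ν hν
  rw [div_pow, mul_div_assoc', div_lt_one (by positivity)] at hν
  exact hν

/-- The growth from below is invariant under a shift. -/
lemma lower_shift (a : ℕ → ℕ) (s t : ℕ) (c c' : ℝ) (hc : 1 < c) (hcc : c < c')
    (b : ℕ → ℕ) (hab : ∀ n, b (n + s) = a (n + t))
    (ha : ∀ᶠ n : ℕ in atTop, c' ^ n < (a n : ℝ)) :
    ∀ᶠ n : ℕ in atTop, c ^ (n + 1) < (b n : ℝ) := by
  have h1 := pow_shift c c' (by linarith) hcc (s + 1)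
  obtain ⟨n0, hn0⟩ := eventually_atTop.1 (ha.and h1)
  refine eventually_atTop.2 ⟨n0 + s, ?_⟩
  intro m hm
  obtain ⟨n, rfl⟩ : ∃ n, m = n + s := ⟨m - s, by omega⟩
  rw [hab]
  have h2 := (hn0 (n + t) (by omega)).1
  have h3 := (hn0 (n + s) (by omega)).2
  have h4 : c' ^ n * c' ^ s = c' ^ (n + s) := (pow_add c' n s).symm
  have hc'1 : 1 < c' := hc.trans hcc
  have hpos : 0 < c' ^ s := by positivity
  -- c ^ (n + s + 1) < c' ^ n
  have h5 : c' ^ (s + 1) * c ^ (n + s) < c' ^ n * c' ^ s := by rw [h4]; exact h3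
  have h6 : c' ^ (s + 1) * c ^ (n + s) = c' ^ s * (c' * c ^ (n + s)) := by ring
  have h7 : c' * c ^ (n + s) < c' ^ n := by
    rw [h6, mul_comm (c' ^ n)] at h5
    exact lt_of_mul_lt_mul_left h5 hpos.le
  have h8 : c ^ (n + s + 1) ≤ c' * c ^ (n + s) := by
    rw [pow_succ, mul_comm]
    exact mul_le_mul_of_nonneg_right hcc.le (by positivity)
  have h9 : c' ^ n ≤ c' ^ (n + t) := pow_le_pow_right₀ hc'1.le (by omega)
  linarith

/-- The growth from above is invariant under a shift. -/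
lemma upper_shift (a : ℕ → ℕ) (s t : ℕ) (c c' : ℝ) (hc : 1 < c) (hcc : c < c')
    (b : ℕ → ℕ) (hab : ∀ n, b (n + s) = a (n + t))
    (ha : ∀ᶠ n : ℕ in atTop, (a n : ℝ) < c ^ n) :
    ∀ᶠ n : ℕ in atTop, (b n : ℝ) < c' ^ n := by
  have h1 := pow_shift c c' (by linarith) hcc t
  obtain ⟨n0, hn0⟩ := eventually_atTop.1 (ha.and h1)
  refine eventually_atTop.2 ⟨n0 + s, ?_⟩
  intro m hm
  obtain ⟨n, rfl⟩ : ∃ n, m = n + s := ⟨m - s, by omega⟩
  rw [hab]
  have h2 := (hn0 (n + t) (by omega)).1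
  have h3 := (hn0 (n + s) (by omega)).2
  have hc'1 : 1 < c' := hc.trans hcc
  have h4 : c ^ (n + t) ≤ c' ^ t * c ^ (n + s) := by
    rw [pow_add, pow_add]
    have e1 : c ^ t ≤ c' ^ t := pow_le_pow_left₀ (by linarith) hcc.le t
    have e2 : 1 ≤ c ^ s := one_le_pow₀ hc.le
    have e3 : 0 < c ^ n := by positivity
    have e4 : c ^ t ≤ c' ^ t * c ^ s := by
      calc c ^ t ≤ c' ^ t := e1
        _ = c' ^ t * 1 := (mul_one _).symm
        _ ≤ _ := mul_le_mul_of_nonneg_left e2 (by positivity)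
    calc c ^ n * c ^ t ≤ c ^ n * (c' ^ t * c ^ s) := mul_le_mul_of_nonneg_left e4 e3.le
      _ = _ := by ring
  linarith

/-! ### The value of the lower limit -/

lemma le_root (c : ℝ) (hc : 0 < c) (m ν : ℕ) (hν : 0 < ν) (h : c ^ ν < (m : ℝ)) :
    ENNReal.ofReal c ≤ (m : ENNReal) ^ (1 / (ν : ℝ)) := by
  rw [one_div, ENNReal.le_rpow_inv_iff (by exact_mod_cast hν), ENNReal.rpow_natCast,
    ← ENNReal.ofReal_pow hc.le, ← ENNReal.ofReal_natCast]
  exact ENNReal.ofReal_le_ofReal h.le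

lemma root_le (c : ℝ) (hc : 0 < c) (m ν : ℕ) (hν : 0 < ν) (h : (m : ℝ) < c ^ ν) :
    (m : ENNReal) ^ (1 / (ν : ℝ)) ≤ ENNReal.ofReal c := by
  rw [one_div, ENNReal.rpow_inv_le_iff (by exact_mod_cast hν), ENNReal.rpow_natCast,
    ← ENNReal.ofReal_pow hc.le, ← ENNReal.ofReal_natCast]
  exact ENNReal.ofReal_le_ofReal h.le

lemma nth_M {N : (Fin 2 → ℝ) → ℝ} (hN : Pool.Agent.Helper54.IsNorm2 N) {θ : Fin 2 → ℝ}
    (hθ : ∀ q : ℤ, q ≠ 0 → ¬ ∀ i : Fin 2, ∃ a : ℤ, (q : ℝ) * θ i = (a : ℝ)) :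
    ∃ s t : ℕ, ∀ n, Nat.nth (IsHeight N θ) (n + s) =
      Nat.nth (Pool.Agent.Helper54.isRec N θ) (n + t) := by
  obtain ⟨K, -, hK⟩ := exists_bound hN hθ
  exact nth_shift _ _ (height_infinite hN hθ) K hK

/-- The lower bound, eventually. -/
lemma lower_ev {N : (Fin 2 → ℝ) → ℝ} (hN : Pool.Agent.Helper54.IsNorm2 N) {θ : Fin 2 → ℝ}
    (hθ : ∀ q : ℤ, q ≠ 0 → ¬ ∀ i : Fin 2, ∃ a : ℤ, (q : ℝ) * θ i = (a : ℝ)) (φ : ℝ)
    (hφ : φ ^ 3 = φ + 1) (c : ℝ) (hc : 1 < c) (hcφ : c < φ) :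
    ∀ᶠ ν : ℕ in atTop, ENNReal.ofReal c ≤ (M N θ ν : ENNReal) ^ (1 / (ν : ℝ)) := by
  obtain ⟨s, t, hst⟩ := nth_M hN hθ
  obtain ⟨c', h1, h2⟩ := exists_between hcφ
  have hgrow := Pool.Agent.Helper54.Cert.nth_growth Pool.Agent.Helper54.Cert.valid_root hN hθ
    φ hφ c' (by linarith) h2
  have := lower_shift (Nat.nth (Pool.Agent.Helper54.isRec N θ)) s t c c' hc h1
    (Nat.nth (IsHeight N θ)) hst hgrow
  obtain ⟨n0, hn0⟩ := eventually_atTop.1 this
  refine eventually_atTop.2 ⟨n0 + 1, ?_⟩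
  intro ν hν
  obtain ⟨n, rfl⟩ : ∃ n, ν = n + 1 := ⟨ν - 1, by omega⟩
  apply le_root c (by linarith) _ _ (by omega)
  exact hn0 n (by omega)

/-- The lower limit is at least `φ`. -/
lemma lower_G {N : (Fin 2 → ℝ) → ℝ} (hN : Pool.Agent.Helper54.IsNorm2 N) {θ : Fin 2 → ℝ}
    (hθ : ∀ q : ℤ, q ≠ 0 → ¬ ∀ i : Fin 2, ∃ a : ℤ, (q : ℝ) * θ i = (a : ℝ)) (φ : ℝ)
    (hφ : φ ^ 3 = φ + 1) : ENNReal.ofReal φ ≤ G N θ := by
  have h1 := Pool.Agent.Helper54.phi_gt_one hφ
  apply le_of_forall_lt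
  intro r hr
  -- pick a real number in between
  have hrtop : r ≠ ⊤ := hr.ne_top
  obtain ⟨r', rfl⟩ : ∃ r' : NNReal, (r' : ENNReal) = r := ⟨r.toNNReal, ENNReal.coe_toNNReal hrtop⟩
  have hr' : (r' : ℝ) < φ := by
    have : ENNReal.ofReal (r' : ℝ) < ENNReal.ofReal φ := by
      rwa [ENNReal.ofReal_coe_nnreal]
    exact (ENNReal.ofReal_lt_ofReal_iff (by linarith)).1 this
  obtain ⟨c, hc1, hc2⟩ := exists_between (max_lt hr' h1)
  have hcr : (r' : ℝ) < c := lt_of_le_of_lt (le_max_left _ _) hc1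
  have hc3 : 1 < c := lt_of_le_of_lt (le_max_right _ _) hc1
  have h2 : ENNReal.ofReal c ≤ G N θ := by
    apply le_liminf_of_le
    · isBoundedDefault
    · exact lower_ev hN hθ φ hφ c hc3 hc2
  refine lt_of_lt_of_le ?_ h2
  rw [← ENNReal.ofReal_coe_nnreal]
  exact (ENNReal.ofReal_lt_ofReal_iff (by linarith)).2 hcr

/-- The upper bound for the extremal pair, eventually. -/
lemma upper_ev {φ : ℝ} (hφ : φ ^ 3 = φ + 1) (c : ℝ) (hcφ : φ < c) :
    ∀ᶠ ν : ℕ in atTop,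
      (M (Pool.Agent.Helper54.eN φ) (Pool.Agent.Helper54.eθ φ) ν : ENNReal) ^ (1 / (ν : ℝ))
        ≤ ENNReal.ofReal c := by
  have hφ1 := Pool.Agent.Helper54.phi_gt_one hφ
  have hN := Pool.Agent.Helper54.eN_norm hφ
  have hθ := Pool.Agent.Helper54.eθ_adm hφ
  obtain ⟨s, t, hst⟩ := nth_M hN hθ
  obtain ⟨c0, h0, h1, h2⟩ := Pool.Agent.Helper54.sharp hφ (c - φ) (by linarith)
  have h1' : c0 < c := by linarith
  -- `c0` is larger than one
  have hc0 : ∀ᶠ n : ℕ in atTop, (Nat.nth (Pool.Agent.Helper54.isRec (Pool.Agent.Helper54.eN φ)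
      (Pool.Agent.Helper54.eθ φ)) n : ℝ) < (max c0 ((1 + c) / 2)) ^ n := by
    filter_upwards [h2] with n hn
    exact lt_of_lt_of_le hn (pow_le_pow_left₀ h0.le (le_max_left _ _) n)
  have h3 : max c0 ((1 + c) / 2) < c := max_lt h1' (by linarith)
  have h4 : 1 < max c0 ((1 + c) / 2) := lt_of_lt_of_le (by linarith) (le_max_right _ _)
  have := upper_shift _ s t _ c h4 h3 (Nat.nth (IsHeight (Pool.Agent.Helper54.eN φ)
    (Pool.Agent.Helper54.eθ φ))) hst hc0
  obtain ⟨n0, hn0⟩ := eventually_atTop.1 this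
  refine eventually_atTop.2 ⟨n0 + 1, ?_⟩
  intro ν hν
  obtain ⟨n, rfl⟩ : ∃ n, ν = n + 1 := ⟨ν - 1, by omega⟩
  apply root_le c (by linarith) _ _ (by omega)
  have h5 := hn0 n (by omega)
  refine lt_of_lt_of_le h5 ?_
  exact pow_le_pow_right₀ (by linarith) (by omega)

/-- The limit for the extremal pair. -/
lemma limit_ext {φ : ℝ} (hφ : φ ^ 3 = φ + 1) :
    Tendsto (fun ν : ℕ =>
      (M (Pool.Agent.Helper54.eN φ) (Pool.Agent.Helper54.eθ φ) ν : ENNReal) ^ (1 / (ν : ℝ)))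
      atTop (nhds (ENNReal.ofReal φ)) := by
  have h1 := Pool.Agent.Helper54.phi_gt_one hφ
  have hN := Pool.Agent.Helper54.eN_norm hφ
  have hθ := Pool.Agent.Helper54.eθ_adm hφ
  rw [tendsto_order]
  constructor
  · intro r hr
    have hrtop : r ≠ ⊤ := hr.ne_top
    obtain ⟨r', rfl⟩ : ∃ r' : NNReal, (r' : ENNReal) = r :=
      ⟨r.toNNReal, ENNReal.coe_toNNReal hrtop⟩
    have hr' : (r' : ℝ) < φ := by
      have : ENNReal.ofReal (r' : ℝ) < ENNReal.ofReal φ := by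
        rwa [ENNReal.ofReal_coe_nnreal]
      exact (ENNReal.ofReal_lt_ofReal_iff (by linarith)).1 this
    obtain ⟨c, hc1, hc2⟩ := exists_between (max_lt hr' h1)
    have hcr : (r' : ℝ) < c := lt_of_le_of_lt (le_max_left _ _) hc1
    have hc3 : 1 < c := lt_of_le_of_lt (le_max_right _ _) hc1
    filter_upwards [lower_ev hN hθ φ hφ c hc3 hc2] with ν hν
    refine lt_of_lt_of_le ?_ hν
    rw [← ENNReal.ofReal_coe_nnreal]
    exact (ENNReal.ofReal_lt_ofReal_iff (by linarith)).2 hcr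
  · intro r hr
    obtain ⟨c, hc1, hc2⟩ : ∃ c : ℝ, φ < c ∧ ENNReal.ofReal c < r := by
      obtain ⟨m, hm1, hm2⟩ := exists_between hr
      have hmtop : m ≠ ⊤ := hm2.ne_top
      refine ⟨m.toReal, ?_, ?_⟩
      · exact (ENNReal.ofReal_lt_iff_lt_toReal (by linarith) hmtop).1 hm1
      · rwa [ENNReal.ofReal_toReal hmtop]
    filter_upwards [upper_ev hφ c hc1] with ν hν
    exact lt_of_le_of_lt hν hc2

/-- The double infimum of Lagarias: over all norms `N` on the plane and all admissible `θ`, the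
infimum of the lower limit of `(M ν) ^ (1 / ν)` is the real root `φ` of `φ ^ 3 = φ + 1`, and it is
attained, by a pair for which `(M ν) ^ (1 / ν)` converges. -/
theorem result :
    (∃! φ : ℝ, φ ^ 3 = φ + 1) ∧
    (∀ (N : (Fin 2 → ℝ) → ℝ) (θ : Fin 2 → ℝ), IsNorm N → Admissible θ →
      ∃ z : ℕ → ℤ × (Fin 2 → ℤ),
        (∀ ν, 1 ≤ ν → IsBest N θ (z ν) ∧ |(z ν).1| = (M N θ ν : ℤ)) ∧
        (∀ ν, 1 ≤ ν → M N θ ν < M N θ (ν + 1)) ∧
        (∀ w, IsBest N θ w → ∃ ν, 1 ≤ ν ∧ (w = z ν ∨ w = -z ν))) ∧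
    ∀ φ : ℝ, φ ^ 3 = φ + 1 →
      (⨅ (N : (Fin 2 → ℝ) → ℝ) (_ : IsNorm N) (θ : Fin 2 → ℝ) (_ : Admissible θ), G N θ)
        = ENNReal.ofReal φ ∧
      ∃ (N : (Fin 2 → ℝ) → ℝ) (θ : Fin 2 → ℝ), IsNorm N ∧ Admissible θ ∧
        Tendsto (fun ν : ℕ => (M N θ ν : ENNReal) ^ (1 / (ν : ℝ))) atTop
          (nhds (ENNReal.ofReal φ)) := by
  refine ⟨?_, ?_, ?_⟩
  · -- existence and uniqueness of the root
    have hex : ∃ φ : ℝ, φ ^ 3 = φ + 1 := by
      have hcont : ContinuousOn (fun t : ℝ => t ^ 3 - t - 1) (Set.Icc 1 2) := by fun_prop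
      have := intermediate_value_Icc (by norm_num : (1:ℝ) ≤ 2) hcont
      obtain ⟨φ, -, hφ⟩ := this (show (0:ℝ) ∈ Set.Icc ((1:ℝ) ^ 3 - 1 - 1) ((2:ℝ) ^ 3 - 2 - 1) by
        norm_num)
      refine ⟨φ, ?_⟩
      have : φ ^ 3 - φ - 1 = 0 := hφ
      linarith
    obtain ⟨φ, hφ⟩ := hex
    refine ⟨φ, hφ, ?_⟩
    intro ψ hψ
    have h1 := Pool.Agent.Helper54.phi_gt_one hφ
    have h2 := Pool.Agent.Helper54.phi_gt_one hψ
    have h3 : (ψ - φ) * (ψ ^ 2 + ψ * φ + φ ^ 2 - 1) = 0 := by linear_combination hψ - hφ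
    rcases mul_eq_zero.1 h3 with h | h
    · linarith
    · nlinarith
  · intro N θ hN' hθ'
    have hN := norm_old hN'
    have hθ := adm_old hθ'
    have hinf := height_infinite hN hθ
    have hmem : ∀ ν : ℕ, IsHeight N θ (M N θ ν) := fun ν => Nat.nth_mem_of_infinite hinf _
    choose z hz using hmem
    refine ⟨z, fun ν _ => hz ν, ?_, ?_⟩
    · intro ν hν
      exact Nat.nth_strictMono hinf (by omega)
    · intro w hw
      classical
      have hh : IsHeight N θ w.1.natAbs := ⟨w, hw, (Int.natCast_natAbs w.1).symm⟩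
      refine ⟨Nat.count (IsHeight N θ) w.1.natAbs + 1, by omega, ?_⟩
      have h1 : M N θ (Nat.count (IsHeight N θ) w.1.natAbs + 1) = w.1.natAbs :=
        Nat.nth_count hh
      have h2 := hz (Nat.count (IsHeight N θ) w.1.natAbs + 1)
      rw [h1] at h2
      exact h2.1.unique hw (by rw [h2.2]; exact Int.natCast_natAbs w.1)
  · intro φ hφ
    have h1 := Pool.Agent.Helper54.phi_gt_one hφ
    have hN := Pool.Agent.Helper54.eN_norm hφ
    have hθ := Pool.Agent.Helper54.eθ_adm hφ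
    have hlim := limit_ext hφ
    refine ⟨le_antisymm ?_ ?_, _, _, norm_new hN, adm_new hθ, hlim⟩
    · refine iInf_le_of_le (Pool.Agent.Helper54.eN φ) (iInf_le_of_le (norm_new hN)
        (iInf_le_of_le (Pool.Agent.Helper54.eθ φ) (iInf_le_of_le (adm_new hθ) ?_)))
      exact le_of_eq hlim.liminf_eq
    · refine le_iInf fun N => le_iInf fun hN' => le_iInf fun θ => le_iInf fun hθ' => ?_
      exact lower_G (norm_old hN') (adm_old hθ') φ hφ

end Pool.Agent.Results.MP_f10524_nt.DoubleInfimum
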