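import Pool.Agent.Lib.Helper54.BestApproxRecord

set_option autoImplicit false

namespace Pool.Agent.Results.MP_f10524_nt.UniversalGrowth

/-- For every norm `N` on the plane and every admissible `θ`, the heights
`M 0 < M 1 < M 2 < ...` of the best approximations satisfy `M (ν + 2) + M ν ≤ M (ν + 4)` for all
large `ν`; hence `liminf (M ν) ^ (1 / ν)` is at least the positive root `φ = 1.27201...` of
`φ ^ 4 = φ ^ 2 + 1`, the square root of the golden ratio. -/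
theorem result :
    ∀ φ : ℝ, 0 < φ → φ ^ 4 = φ ^ 2 + 1 →
      ∀ N : (Fin 2 → ℝ) → ℝ,
        (∀ x, N x = 0 → x = 0) →
        (∀ x y, N (x + y) ≤ N x + N y) →
        (∀ (r : ℝ) (x : Fin 2 → ℝ), N (r • x) = |r| * N x) →
        ∀ θ : Fin 2 → ℝ,
          (∀ q : ℤ, q ≠ 0 → ¬ ∀ i : Fin 2, ∃ a : ℤ, (q : ℝ) * θ i = (a : ℝ)) →
          ∀ M : ℕ → ℕ,
            M = Nat.nth (fun k : ℕ => 0 < k ∧ ∀ j : ℕ, 0 < j → j < k →
                  (⨅ a : Fin 2 → ℤ, N (fun i => (k : ℝ) * θ i - ((a i : ℤ) : ℝ))) <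
                  (⨅ a : Fin 2 → ℤ, N (fun i => (j : ℝ) * θ i - ((a i : ℤ) : ℝ)))) →
            (∀ᶠ ν in Filter.atTop, M (ν + 2) + M ν ≤ M (ν + 4)) ∧
            ∀ c : ℝ, 0 < c → c < φ → ∀ᶠ ν in Filter.atTop, c ^ ν < (M ν : ℝ) := by
  intro φ hφ hφ4 N h0 htri hhom θ hθ M hM
  have hN : Pool.Agent.Helper54.IsNorm2 N := ⟨h0, htri, hhom⟩
  have hM' : M = Nat.nth (Pool.Agent.Helper54.isRec N θ) := hM
  obtain ⟨n0, hn0⟩ := Pool.Agent.Helper54.record_growth hN hθ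
  have hinf := Pool.Agent.Helper54.rec_infinite hN hθ
  subst hM'
  refine ⟨?_, ?_⟩
  · exact Filter.eventually_atTop.2 ⟨n0, hn0⟩
  · intro c hc hcφ
    exact Pool.Agent.Helper54.growth_of_rec _ n0
      (fun n => (Nat.nth_mem_of_infinite hinf n).1) hn0 φ hφ hφ4 c hc hcφ

end Pool.Agent.Results.MP_f10524_nt.UniversalGrowth
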